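import Pool.Agent.Y522.NA.Stm

/-!
# NA-Loc: the local theorem for nearly affine maps
-/

set_option autoImplicit false

open Set Filter Topology Metric Function MeasureTheory
open scoped Manifold ContDiff

noncomputable section

namespace Pool.Agent.Y655.NA

open Pool.Agent.Y522 Pool.Agent.Y522.NA

/-- a linear map close to an invertible one is invertible -/
lemma equiv_of_near {n : ℕ} (L : E n ≃L[ℝ] E n) (D : E n →L[ℝ] E n)
    (h : ∀ u, ‖L.symm (D u) - u‖ ≤ 1 / 2 * ‖u‖) :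
    ∃ A : E n ≃L[ℝ] E n, (A : E n →L[ℝ] E n) = D := by
  have hinj : Function.Injective (D : E n →ₗ[ℝ] E n) := by
    rw [injective_iff_map_eq_zero]
    intro u hu
    have h1 := h u
    have h2 : D u = 0 := hu
    rw [h2, map_zero, zero_sub, norm_neg] at h1
    have h3 : ‖u‖ ≤ 0 := by linarith
    exact norm_le_zero_iff.1 h3
  refine ⟨(LinearEquiv.ofInjectiveEndo (D : E n →ₗ[ℝ] E n) hinj).toContinuousLinearEquiv, ?_⟩
  ext u
  rfl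

lemma sum_bound {K : ℕ} {V : Type} [NormedAddCommGroup V] [NormedSpace ℝ V] (a : Fin K → ℝ)
    (v : Fin K → V) (A b : ℝ) (hb : 0 ≤ b) (ha : ∑ j, |a j| ≤ A) (hv : ∀ j, ‖v j‖ ≤ b) :
    ‖∑ j, a j • v j‖ ≤ A * b := by
  refine (norm_sum_le _ _).trans ?_
  calc ∑ j, ‖a j • v j‖ ≤ ∑ j, |a j| * b := by
        apply Finset.sum_le_sum
        intro j _
        rw [norm_smul, Real.norm_eq_abs]
        exact mul_le_mul_of_nonneg_left (hv j) (abs_nonneg _)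
    _ = (∑ j, |a j|) * b := by rw [Finset.sum_mul]
    _ ≤ A * b := mul_le_mul_of_nonneg_right ha hb

section point

variable {n q K : ℕ} (g : E n → E n) (E0 : E n → E q) (Tm : Fin K → E n → E q)
    (χ : Fin K → E n → ℝ) (c : ℝ) (z : E n) (L : E n ≃L[ℝ] E n)

lemma point0 (hχ0 : ∀ j, 0 ≤ χ j z) (hsum : ∑ j, χ j z = 1) (C Cd : ℝ) (hC : 0 ≤ C * c)
    (hCd : 0 ≤ Cd)
    (e1 : ∀ j, ∃ (η : E n) (ξ : E q), Tm j z - E0 (g z) = fderiv ℝ E0 (g z) (L η) + ξ ∧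
      ‖η‖ ≤ C * c ∧ ‖ξ‖ ≤ Cd * (‖(L : E n →L[ℝ] E n)‖ * c) ^ 2) :
    ∃ (η : E n) (ξ : E q), (∑ j, χ j z • Tm j z) - E0 (g z) = fderiv ℝ E0 (g z) (L η) + ξ ∧
      ‖η‖ ≤ C * c ∧ ‖ξ‖ ≤ Cd * (‖(L : E n →L[ℝ] E n)‖ * c) ^ 2 := by
  choose η ξ h1 h2 h3 using e1
  have ha : ∑ j, |χ j z| ≤ 1 := by
    rw [Finset.sum_congr rfl (fun j _ => abs_of_nonneg (hχ0 j)), hsum]
  refine ⟨∑ j, χ j z • η j, ∑ j, χ j z • ξ j, ?_, ?_, ?_⟩
  · have h4 : E0 (g z) = ∑ j, χ j z • E0 (g z) := by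
      rw [← Finset.sum_smul, hsum, one_smul]
    rw [h4, ← Finset.sum_sub_distrib, map_sum, map_sum, ← Finset.sum_add_distrib]
    apply Finset.sum_congr rfl
    intro j _
    rw [← smul_sub, h1 j, smul_add, map_smul, map_smul]
  · have := sum_bound (fun j => χ j z) η 1 _ hC ha h2
    rwa [one_mul] at this
  · have := sum_bound (fun j => χ j z) ξ 1 _ (mul_nonneg hCd (sq_nonneg _)) ha h3
    rwa [one_mul] at this

lemma point1 (hc : 0 ≤ c) (hc1 : c ≤ 1)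
    (hT : ∀ j, DifferentiableAt ℝ (Tm j) z) (hχ : ∀ j, DifferentiableAt ℝ (χ j) z)
    (hχ0 : ∀ j, 0 ≤ χ j z) (hsum : ∀ᶠ z' in 𝓝 z, ∑ j, χ j z' = 1) (C Cd a Cχ : ℝ)
    (hC : 0 ≤ C) (hCd : 0 ≤ Cd) (ha0 : 0 ≤ a)
    (e1 : ∀ j, ∃ (η : E n) (ξ : E q), Tm j z - E0 (g z) = fderiv ℝ E0 (g z) (L η) + ξ ∧
      ‖η‖ ≤ C * c ∧ ‖ξ‖ ≤ Cd * (‖(L : E n →L[ℝ] E n)‖ * c) ^ 2)
    (e2 : ∀ j, ∀ u : E n, ∃ (η : E n) (ξ : E q), fderiv ℝ (Tm j) z u =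
        fderiv ℝ E0 (g z) (L (u + η)) + ξ ∧ ‖η‖ ≤ a * ‖u‖ ∧
          ‖ξ‖ ≤ Cd * ‖(L : E n →L[ℝ] E n)‖ ^ 2 * c * ‖u‖)
    (hCχ : ∑ j, ‖fderiv ℝ (χ j) z‖ ≤ Cχ) (u : E n) :
    ∃ (η : E n) (ξ : E q), fderiv ℝ (fun z => ∑ j, χ j z • Tm j z) z u =
        fderiv ℝ E0 (g z) (L (u + η)) + ξ ∧ ‖η‖ ≤ (a + Cχ * C * c) * ‖u‖ ∧
          ‖ξ‖ ≤ Cd * (1 + Cχ) * ‖(L : E n →L[ℝ] E n)‖ ^ 2 * c * ‖u‖ := by
  choose η' ξ' h1' h2' h3' using e1
  choose η ξ h1 h2 h3 using fun j => e2 j u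
  have hs : ∑ j, χ j z = 1 := hsum.self_of_nhds
  have ha : ∑ j, |χ j z| ≤ 1 := by
    rw [Finset.sum_congr rfl (fun j _ => abs_of_nonneg (hχ0 j)), hs]
  have hb : ∑ j, |fderiv ℝ (χ j) z u| ≤ Cχ * ‖u‖ := by
    refine le_trans ?_ (mul_le_mul_of_nonneg_right hCχ (norm_nonneg u))
    rw [Finset.sum_mul]
    apply Finset.sum_le_sum
    intro j _
    exact (fderiv ℝ (χ j) z).le_opNorm u
  have hCχ0 : 0 ≤ Cχ := le_trans (Finset.sum_nonneg fun j _ => norm_nonneg _) hCχ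
  have hd0 : ∑ j, fderiv ℝ (χ j) z u = 0 := by
    have k1 : fderiv ℝ (fun z => ∑ j, χ j z) z = 0 := by
      have k2 : (fun z => ∑ j, χ j z) =ᶠ[𝓝 z] fun _ => (1 : ℝ) := hsum
      rw [k2.fderiv_eq]
      exact fderiv_const_apply 1
    have k3 : fderiv ℝ (fun z => ∑ j, χ j z) z = ∑ j, fderiv ℝ (χ j) z :=
      fderiv_fun_sum fun j _ => hχ j
    have k4 := congrArg (fun D : E n →L[ℝ] ℝ => D u) (k3.symm.trans k1)
    simpa using k4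
  have hder : fderiv ℝ (fun z => ∑ j, χ j z • Tm j z) z u =
      ∑ j, (χ j z • fderiv ℝ (Tm j) z u + fderiv ℝ (χ j) z u • Tm j z) := by
    have hd : ∀ j, DifferentiableAt ℝ (fun y => χ j y • Tm j y) z :=
      fun j => (hχ j).smul (hT j)
    rw [fderiv_fun_sum (fun j _ => hd j), sum_apply]
    apply Finset.sum_congr rfl
    intro j _
    rw [fderiv_fun_smul (hχ j) (hT j)]
    simp
  refine ⟨(∑ j, χ j z • η j) + ∑ j, fderiv ℝ (χ j) z u • η' j,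
    (∑ j, χ j z • ξ j) + ∑ j, fderiv ℝ (χ j) z u • ξ' j, ?_, ?_, ?_⟩
  · rw [hder]
    have k1 : ∑ j, fderiv ℝ (χ j) z u • Tm j z =
        ∑ j, fderiv ℝ (χ j) z u • (Tm j z - E0 (g z)) := by
      simp only [smul_sub, Finset.sum_sub_distrib]
      rw [← Finset.sum_smul, hd0, zero_smul, sub_zero]
    have k2 : u = ∑ j, χ j z • u := by rw [← Finset.sum_smul, hs, one_smul]
    rw [Finset.sum_add_distrib, k1]
    have k3 : ∑ j, χ j z • fderiv ℝ (Tm j) z u =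
        fderiv ℝ E0 (g z) (L (u + ∑ j, χ j z • η j)) + ∑ j, χ j z • ξ j := by
      conv_rhs => rw [k2]
      rw [← Finset.sum_add_distrib, map_sum, map_sum, ← Finset.sum_add_distrib]
      apply Finset.sum_congr rfl
      intro j _
      simp only [h1 j, smul_add, map_add, map_smul]
    have k4 : ∑ j, fderiv ℝ (χ j) z u • (Tm j z - E0 (g z)) =
        fderiv ℝ E0 (g z) (L (∑ j, fderiv ℝ (χ j) z u • η' j)) +
          ∑ j, fderiv ℝ (χ j) z u • ξ' j := by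
      rw [map_sum, map_sum, ← Finset.sum_add_distrib]
      apply Finset.sum_congr rfl
      intro j _
      rw [h1' j, smul_add, map_smul, map_smul]
    rw [k3, k4]
    simp only [map_add]
    abel
  · have k1 := sum_bound (fun j => χ j z) η 1 _ (mul_nonneg ha0 (norm_nonneg u)) ha h2
    have k2 := sum_bound (fun j => fderiv ℝ (χ j) z u) η' (Cχ * ‖u‖) _ (mul_nonneg hC hc) hb h2'
    refine (norm_add_le _ _).trans ((add_le_add k1 k2).trans (le_of_eq ?_))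
    ring
  · have k1 := sum_bound (fun j => χ j z) ξ 1 (Cd * ‖(L : E n →L[ℝ] E n)‖ ^ 2 * c * ‖u‖)
      (by positivity) ha h3
    have k2 := sum_bound (fun j => fderiv ℝ (χ j) z u) ξ' (Cχ * ‖u‖)
      (Cd * (‖(L : E n →L[ℝ] E n)‖ * c) ^ 2) (by positivity) hb h3'
    refine (norm_add_le _ _).trans ((add_le_add k1 k2).trans ?_)
    have k3 : c ^ 2 ≤ c := by nlinarith
    have k4 : Cχ * ‖u‖ * (Cd * (‖(L : E n →L[ℝ] E n)‖ * c) ^ 2) =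
        (Cχ * ‖u‖ * Cd * ‖(L : E n →L[ℝ] E n)‖ ^ 2) * c ^ 2 := by ring
    rw [k4]
    have k5 := mul_le_mul_of_nonneg_left k3
      (show 0 ≤ Cχ * ‖u‖ * Cd * ‖(L : E n →L[ℝ] E n)‖ ^ 2 by positivity)
    refine (add_le_add le_rfl k5).trans (le_of_eq ?_)
    ring

end point

/-- the composition with the retraction -/
lemma point2 {n q : ℕ} (L : E n ≃L[ℝ] E n) (D0 : E n →L[ℝ] E q) (P0 P1 : E q →L[ℝ] E n)
    (hP : ∀ v, P0 (D0 v) = v) (B Λ d Λ0 C5 c : ℝ) (hB : ‖D0‖ ≤ B) (hd : ‖P1 - P0‖ ≤ Λ * d)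
    (hΛ0 : ‖P1‖ ≤ Λ0) (u η : E n) (ξ : E q) (C6 : ℝ)
    (hη : ‖η‖ ≤ 3 / 8 * ‖u‖) (hξ : ‖ξ‖ ≤ C6 * ‖(L : E n →L[ℝ] E n)‖ ^ 2 * c * ‖u‖)
    (hdc : Λ * d ≤ C5 * (‖(L : E n →L[ℝ] E n)‖ * c))
    (hs : ‖(L.symm : E n →L[ℝ] E n)‖ * ‖(L : E n →L[ℝ] E n)‖ ^ 2 * c *
      (2 * C5 * B + Λ0 * C6) ≤ 1 / 8) (hL5 : 0 ≤ C5 * (‖(L : E n →L[ℝ] E n)‖ * c)) :
    ‖L.symm (P1 (D0 (L (u + η)) + ξ)) - u‖ ≤ 1 / 2 * ‖u‖ := by
  set l := ‖(L : E n →L[ℝ] E n)‖ with hl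
  set m := ‖(L.symm : E n →L[ℝ] E n)‖ with hm
  have hl0 : 0 ≤ l := norm_nonneg _
  have hm0 : 0 ≤ m := norm_nonneg _
  have hB0 : 0 ≤ B := (norm_nonneg _).trans hB
  have hu0 := norm_nonneg u
  have e1 : L.symm (P1 (D0 (L (u + η)) + ξ)) - u =
      η + L.symm ((P1 - P0) (D0 (L (u + η))) + P1 ξ) := by
    have k1 : P1 (D0 (L (u + η)) + ξ) = L (u + η) + ((P1 - P0) (D0 (L (u + η))) + P1 ξ) := by
      rw [map_add, sub_apply, hP]
      abel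
    rw [k1, map_add L.symm, L.symm_apply_apply]
    abel
  have e2 : ‖u + η‖ ≤ 2 * ‖u‖ := (norm_add_le _ _).trans (by linarith)
  have e3 : ‖L (u + η)‖ ≤ l * (2 * ‖u‖) :=
    ((L : E n →L[ℝ] E n).le_opNorm _).trans (mul_le_mul_of_nonneg_left e2 hl0)
  have e4 : ‖D0 (L (u + η))‖ ≤ B * (l * (2 * ‖u‖)) :=
    (D0.le_opNorm _).trans (mul_le_mul hB e3 (norm_nonneg _) hB0)
  have e5 : ‖(P1 - P0) (D0 (L (u + η)))‖ ≤ C5 * (l * c) * (B * (l * (2 * ‖u‖))) :=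
    ((P1 - P0).le_opNorm _).trans (mul_le_mul (hd.trans hdc) e4 (norm_nonneg _) hL5)
  have e6 : ‖P1 ξ‖ ≤ Λ0 * (C6 * l ^ 2 * c * ‖u‖) :=
    (P1.le_opNorm _).trans (mul_le_mul hΛ0 hξ (norm_nonneg _) ((norm_nonneg _).trans hΛ0))
  have e7 : ‖L.symm ((P1 - P0) (D0 (L (u + η))) + P1 ξ)‖ ≤
      m * (C5 * (l * c) * (B * (l * (2 * ‖u‖))) + Λ0 * (C6 * l ^ 2 * c * ‖u‖)) :=
    ((L.symm : E n →L[ℝ] E n).le_opNorm _).trans (mul_le_mul_of_nonneg_left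
      ((norm_add_le _ _).trans (add_le_add e5 e6)) hm0)
  have e8 : m * (C5 * (l * c) * (B * (l * (2 * ‖u‖))) + Λ0 * (C6 * l ^ 2 * c * ‖u‖)) =
      (m * l ^ 2 * c * (2 * C5 * B + Λ0 * C6)) * ‖u‖ := by ring
  have e9 := mul_le_mul_of_nonneg_right hs hu0
  rw [e1]
  refine (norm_add_le _ _).trans ?_
  rw [e8] at e7
  linarith

lemma apx_mono {n : ℕ} {ε ε' : ℝ} {g : E n → E n} {p : E n} {r : ℝ} {L : E n ≃L[ℝ] E n}
    (h : Apx n ε g p r L) (hε : ε ≤ ε') (hr : 0 ≤ r) : Apx n ε' g p r L :=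
  fun v hv => (h v hv).trans (mul_le_mul_of_nonneg_right hε hr)

lemma naff_mono {n : ℕ} {ε ε' ρ ρ' : ℝ} {g : E n → E n} (h : NAff n ε ρ g) (hε : ε ≤ ε')
    (hρ : ρ' ≤ ρ) : NAff n ε' ρ' g := by
  intro p hp r hr hr'
  obtain ⟨L, hL⟩ := h p (hp.trans_le hρ) r hr (hr'.trans_le hρ)
  exact ⟨L, apx_mono hL hε hr.le⟩

/-- the constant `κ` is positive in positive dimensions -/
lemma kap_pos {n : ℕ} (hn : n ≠ 0) {κ : ℝ} {T S : E n → E n} {y : E n}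
    (h : Trans n κ T S y) : 0 < κ := by
  by_contra hκ
  push Not at hκ
  have h1 : ∀ᶠ z' in 𝓝 (0 : E n), ‖T z' - T 0‖ ≤ κ * ‖z' - 0‖ := h.lipT.self_of_nhds
  have h2 : ∀ᶠ z' in 𝓝 (0 : E n), z' = 0 := by
    filter_upwards [h1, h.inv] with z' h3 h4
    have h5 : ‖T z' - T 0‖ ≤ 0 := h3.trans (mul_nonpos_of_nonpos_of_nonneg hκ (norm_nonneg _))
    have h6 : T z' = T 0 := by
      rw [← sub_eq_zero]
      exact norm_le_zero_iff.1 h5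
    have h7 : S (T 0) = 0 := h.inv.self_of_nhds
    rw [← h4, h6, h7]
  haveI : Nonempty (Fin n) := ⟨⟨0, Nat.pos_of_ne_zero hn⟩⟩
  haveI : Nontrivial (E n) := inferInstance
  haveI : NeBot (𝓝[≠] (0 : E n)) := Module.punctured_nhds_neBot ℝ (E n) 0
  have h3 : ∀ᶠ z' in 𝓝[≠] (0 : E n), z' = 0 := h2.filter_mono nhdsWithin_le_nhds
  have h4 : ∀ᶠ z' in 𝓝[≠] (0 : E n), z' ≠ 0 := eventually_mem_nhdsWithin
  obtain ⟨x, hx, hx'⟩ := (h3.and h4).exists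
  exact hx' hx

/-- dimension zero -/
lemma loc_zero {q K : ℕ} (g : E 0 → E 0) (E0 : E 0 → E q) (Ψ : E q → E 0)
    (T S : Fin K → E 0 → E 0) (χ : Fin K → E 0 → ℝ) (c : ℝ) (z : E 0) :
    ContDiffAt ℝ ∞ (Fl 0 q K g E0 T S χ c) z ∧
      LD 0 (fun z => Ψ (Fl 0 q K g E0 T S χ c z)) z := by
  haveI : Subsingleton (E 0) := inferInstance
  have h0 : Fl 0 q K g E0 T S χ c = fun _ => Fl 0 q K g E0 T S χ c z := by
    funext y
    rw [Subsingleton.elim y z]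
  refine ⟨by rw [h0]; exact contDiffAt_const, ?_⟩
  have h : (fun z => Ψ (Fl 0 q K g E0 T S χ c z)) = fun y : E 0 => y := by
    funext y
    exact Subsingleton.elim _ _
  rw [h]
  exact LD.id z

lemma ev_bound {V W : Type} [NormedAddCommGroup V] [NormedAddCommGroup W] {f : V → W} {x : V}
    (h : ContinuousAt f x) : ∃ B : ℝ, 0 < B ∧ ∀ᶠ w in 𝓝 x, ‖f w‖ ≤ B := by
  refine ⟨‖f x‖ + 1, by positivity, ?_⟩
  have h1 : ∀ᶠ w in 𝓝 x, ‖f w‖ < ‖f x‖ + 1 := h.norm.eventually_lt_const (lt_add_one _)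
  filter_upwards [h1] with w hw using hw.le

lemma ev_ball {n : ℕ} {P : E n → Prop} (h : ∀ᶠ z in 𝓝 (0 : E n), P z) :
    ∃ ρ : ℝ, 0 < ρ ∧ ∀ z : E n, ‖z‖ < ρ → P z := by
  obtain ⟨ρ, hρ, h1⟩ := Metric.eventually_nhds_iff.1 h
  exact ⟨ρ, hρ, fun z hz => h1 (by rwa [dist_zero_right])⟩

lemma inv_fderiv {n q : ℕ} {E0 : E n → E q} {Ψ : E q → E n} {w0 : E n}
    (hE0 : ∀ᶠ w in 𝓝 w0, ContDiffAt ℝ ∞ E0 w) (hΨ : ∀ᶠ w in 𝓝 (E0 w0), ContDiffAt ℝ ∞ Ψ w)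
    (hinv : ∀ᶠ w in 𝓝 w0, Ψ (E0 w) = w) :
    ∀ᶠ w in 𝓝 w0, ∀ v, fderiv ℝ Ψ (E0 w) (fderiv ℝ E0 w v) = v := by
  have h1 : ∀ᶠ w in 𝓝 w0, ContDiffAt ℝ ∞ Ψ (E0 w) :=
    hE0.self_of_nhds.continuousAt.eventually hΨ
  filter_upwards [hE0, h1, hinv.eventually_nhds] with w h2 h3 h4 v
  have h5 : fderiv ℝ (Ψ ∘ E0) w = (fderiv ℝ Ψ (E0 w)).comp (fderiv ℝ E0 w) :=
    fderiv_comp w (h3.differentiableAt (by simp)) (h2.differentiableAt (by simp))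
  have h6 : (Ψ ∘ E0) =ᶠ[𝓝 w] fun w => w := h4
  rw [h6.fderiv_eq, fderiv_fun_id] at h5
  have h7 := congrArg (fun D : E n →L[ℝ] E n => D v) h5
  exact h7.symm

/-- NA-Loc -/
theorem loc (hG : StGrow) (hT : StTerm) : StLoc := by
  intro n κ
  obtain ⟨C, hC, hT⟩ := hT n κ
  obtain ⟨ε₁, hε₁, hG⟩ := hG n
  have hδ : 0 < 1 / (8 * C) := by positivity
  obtain ⟨ε, hε⟩ : ∃ ε, ε = min ε₁ (min 1 (1 / (8 * C))) := ⟨_, rfl⟩
  have hε0 : 0 < ε := by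
    rw [hε]
    exact lt_min hε₁ (lt_min one_pos hδ)
  have hεa : ε ≤ ε₁ := by rw [hε]; exact min_le_left _ _
  have hεb : ε ≤ 1 := by rw [hε]; exact (min_le_right _ _).trans (min_le_left _ _)
  have hεc : ε ≤ 1 / (8 * C) := by rw [hε]; exact (min_le_right _ _).trans (min_le_right _ _)
  have hCε : C * (ε + 1 / (8 * C)) ≤ 1 / 4 := by
    have h1 : C * (1 / (8 * C)) = 1 / 8 := by field_simp
    have h2 := mul_le_mul_of_nonneg_left hεc hC.le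
    rw [mul_add]
    linarith
  refine ⟨ε, hε0, ?_⟩
  intro q K g E0 Ψ T S y χ hg hN hE0 hΨ hinv hTr hχ hsum
  by_cases hn : n = 0
  · subst hn
    exact ⟨1, 1, one_pos, one_pos, fun z _ c _ _ => loc_zero g E0 Ψ T S χ c z⟩
  have hK : Nonempty (Fin K) := by
    by_contra hcon
    rw [not_nonempty_iff] at hcon
    have h1 := hsum.self_of_nhds
    simp at h1
  have hκ : 0 < κ := by
    obtain ⟨j⟩ := hK
    exact kap_pos hn (hTr j)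
  obtain ⟨ρN, hρN, hN⟩ := hN
  choose ρT cT C' hρT hcT hTm using fun j =>
    hT q g E0 (T j) (S j) (y j) hg hE0 (hTr j) (1 / (8 * C)) hδ
  obtain ⟨jρ, hjρ⟩ := Finite.exists_min ρT
  obtain ⟨jc, hjc⟩ := Finite.exists_min cT
  -- bounds
  have hE0' : ContDiffAt ℝ ∞ E0 (g 0) := hE0.self_of_nhds
  have hΨ' : ContDiffAt ℝ ∞ Ψ (E0 (g 0)) := hΨ.self_of_nhds
  obtain ⟨B, hB0, hB⟩ := ev_bound (hE0'.fderiv_right (m := 0) (by simp)).continuousAt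
  obtain ⟨Λ0, hΛ00, hΛ0⟩ := ev_bound (hΨ'.fderiv_right (m := 0) (by simp)).continuousAt
  obtain ⟨Λ, t, ht, hlip⟩ := (hΨ'.fderiv_right (m := 1) (by
    norm_cast)).exists_lipschitzOnWith
  obtain ⟨r, hr, hball⟩ := Metric.eventually_nhds_iff.1 ((hΨ.and hΛ0).and ht)
  have hinv' := inv_fderiv hE0 hΨ hinv
  have hg0 : ContinuousAt g 0 := hg.self_of_nhds
  have hnear : ∀ᶠ w in 𝓝 (g 0), dist (E0 w) (E0 (g 0)) < r / 2 :=
    hE0'.continuousAt.eventually (Metric.ball_mem_nhds _ (by positivity))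
  have hP : ∀ᶠ z in 𝓝 (0 : E n), ‖fderiv ℝ E0 (g z)‖ ≤ B ∧
      (∀ v, fderiv ℝ Ψ (E0 (g z)) (fderiv ℝ E0 (g z) v) = v) ∧
      dist (E0 (g z)) (E0 (g 0)) < r / 2 :=
    hg0.eventually (hB.and (hinv'.and hnear))
  choose Bχ hBχ0 hBχ using fun j =>
    ev_bound ((hχ j).self_of_nhds.1.fderiv_right (m := 0) (by simp)).continuousAt
  obtain ⟨Cχ, hCχ⟩ : ∃ Cχ, Cχ = ∑ j, Bχ j := ⟨_, rfl⟩
  have hCχ0 : 0 ≤ Cχ := by rw [hCχ]; exact Finset.sum_nonneg fun j _ => (hBχ0 j).le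
  obtain ⟨ρQ, hρQ, hQ⟩ := ev_ball (((hP.and (eventually_all.2 hχ)).and
    (eventually_all.2 hBχ)).and (hsum.eventually_nhds.and hg))
  -- constants
  obtain ⟨Cd, hCd⟩ : ∃ Cd, Cd = (∑ j, |C' j|) + 1 := ⟨_, rfl⟩
  have hCd0 : 0 < Cd := by
    rw [hCd]
    have : 0 ≤ ∑ j, |C' j| := Finset.sum_nonneg fun j _ => abs_nonneg _
    linarith
  have hCdj : ∀ j, C' j ≤ Cd := by
    intro j
    have h1 := Finset.single_le_sum (f := fun j => |C' j|) (fun j _ => abs_nonneg _)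
      (Finset.mem_univ j)
    have h2 := le_abs_self (C' j)
    rw [hCd]
    linarith
  obtain ⟨C5, hC5⟩ : ∃ C5, C5 = (Λ : ℝ) * (B * C + Cd) := ⟨_, rfl⟩
  obtain ⟨C6, hC6⟩ : ∃ C6, C6 = Cd * (1 + Cχ) := ⟨_, rfl⟩
  obtain ⟨C7, hC7⟩ : ∃ C7, C7 = 2 * C5 * B + Λ0 * C6 := ⟨_, rfl⟩
  have hBC : 0 < B * C + Cd := by positivity
  have hC50 : 0 ≤ C5 := by rw [hC5]; positivity
  have hC60 : 0 ≤ C6 := by rw [hC6]; positivity
  have hC70 : 0 ≤ C7 := by rw [hC7]; positivity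
  obtain ⟨θ, hθ⟩ : ∃ θ, θ = min 1 (min (r / (4 * (B * C + Cd))) (1 / (8 * (C7 + 1)))) := ⟨_, rfl⟩
  have hθ0 : 0 < θ := by
    rw [hθ]
    exact lt_min one_pos (lt_min (by positivity) (by positivity))
  have hθ1 : θ ≤ 1 := by rw [hθ]; exact min_le_left _ _
  have hθ2 : θ ≤ r / (4 * (B * C + Cd)) := by
    rw [hθ]; exact (min_le_right _ _).trans (min_le_left _ _)
  have hθ3 : θ ≤ 1 / (8 * (C7 + 1)) := by
    rw [hθ]; exact (min_le_right _ _).trans (min_le_right _ _)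
  obtain ⟨ρ₁, hρ₁⟩ : ∃ ρ₁, ρ₁ = min ρN ρQ := ⟨_, rfl⟩
  have hρ₁0 : 0 < ρ₁ := by rw [hρ₁]; exact lt_min hρN hρQ
  obtain ⟨ρG, cG, hρG, hcG, hGr⟩ := hG g ρ₁ hρ₁0 (by
    intro z hz
    rw [mem_ball, dist_zero_right, hρ₁] at hz
    exact (hQ z (hz.trans_le (min_le_right _ _))).2.2.continuousWithinAt)
    (naff_mono hN hεa (by rw [hρ₁]; exact min_le_left _ _)) (2 * κ * θ) (by positivity)
  refine ⟨min ρN (min ρQ (min ρG (ρT jρ))),
    min 1 (min (cT jc) (min (cG / (2 * κ)) (min (ρN / (4 * κ)) (1 / (8 * (Cχ * C + 1)))))),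
    lt_min hρN (lt_min hρQ (lt_min hρG (hρT jρ))),
    lt_min one_pos (lt_min (hcT jc) (lt_min (by positivity) (lt_min (by positivity)
      (by positivity)))), ?_⟩
  intro z hz c hc hcc
  simp only [le_min_iff] at hcc
  obtain ⟨hc1, hc2, hc3, hc4, hc5⟩ := hcc
  have hκc : 2 * |κ| * c = 2 * κ * c := by rw [abs_of_pos hκ]
  have hrpos : 0 < 2 * |κ| * c := by rw [hκc]; positivity
  have hrN : 2 * |κ| * c < ρN := by
    rw [hκc]
    rw [le_div_iff₀ (by positivity)] at hc4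
    linarith [mul_pos hκ hc]
  have hrG : 2 * |κ| * c ≤ cG := by
    rw [hκc]
    rw [le_div_iff₀ (by positivity)] at hc3
    linarith
  have hCχc : Cχ * C * c ≤ 1 / 8 := by
    rw [le_div_iff₀ (by positivity)] at hc5
    have h1 : 0 ≤ Cχ * C := by positivity
    linarith
  -- the main estimate
  have main : ∀ z : E n, ‖z‖ < min ρN (min ρQ (min ρG (ρT jρ))) →
      ContDiffAt ℝ ∞ (Fl n q K g E0 T S χ c) z ∧
      dist (Fl n q K g E0 T S χ c z) (E0 (g 0)) < r ∧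
      ∃ L : E n ≃L[ℝ] E n, ∀ u : E n, ‖L.symm (fderiv ℝ Ψ (Fl n q K g E0 T S χ c z)
        (fderiv ℝ (Fl n q K g E0 T S χ c) z u)) - u‖ ≤ 1 / 2 * ‖u‖ := by
    intro z hz
    simp only [lt_min_iff] at hz
    obtain ⟨hz1, hz2, hz3, hz4⟩ := hz
    obtain ⟨⟨⟨⟨b1, b2, b3⟩, b4⟩, b5⟩, b6, b7⟩ := hQ z hz2
    obtain ⟨L, hL⟩ := hN z hz1 _ hrpos hrN
    obtain ⟨g1, g2⟩ := hGr z hz3 _ hrpos hrG L (apx_mono hL hεa hrpos.le)
    have hTj : ∀ j, ContDiffAt ℝ ∞ (Term n q g E0 (T j) (S j) c) z := fun j =>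
      (hTm j z (hz4.trans_le (hjρ j)) c hc (hc2.trans (hjc j))).1
    have hTe := fun j => (hTm j z (hz4.trans_le (hjρ j)) c hc (hc2.trans (hjc j))).2 L ε
      hε0.le hεb hL
    obtain ⟨l, hl⟩ : ∃ l, l = ‖(L : E n →L[ℝ] E n)‖ := ⟨_, rfl⟩
    obtain ⟨m, hm⟩ : ∃ m, m = ‖(L.symm : E n →L[ℝ] E n)‖ := ⟨_, rfl⟩
    have hl0 : 0 ≤ l := by rw [hl]; exact norm_nonneg _
    have hm0 : 0 ≤ m := by rw [hm]; exact norm_nonneg _
    have hlc0 : 0 ≤ l * c := mul_nonneg hl0 hc.le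
    rw [hκc, ← hl, ← hm] at g1
    rw [hκc, ← hl] at g2
    have g1' : m * l ^ 2 * c ≤ θ := by
      have h1 : 2 * κ * (m * l ^ 2 * c) ≤ 2 * κ * θ := by
        refine le_trans (le_of_eq ?_) g1
        ring
      exact le_of_mul_le_mul_left h1 (by positivity)
    have g2' : l * c ≤ θ := by
      have h1 : 2 * κ * (l * c) ≤ 2 * κ * θ := by
        refine le_trans (le_of_eq ?_) g2
        ring
      exact le_of_mul_le_mul_left h1 (by positivity)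
    have e1 : ∀ j, ∃ (η : E n) (ξ : E q), Term n q g E0 (T j) (S j) c z - E0 (g z) =
        fderiv ℝ E0 (g z) (L η) + ξ ∧ ‖η‖ ≤ C * c ∧
          ‖ξ‖ ≤ Cd * (‖(L : E n →L[ℝ] E n)‖ * c) ^ 2 := by
      intro j
      obtain ⟨η, ξ, k1, k2, k3⟩ := (hTe j).1
      exact ⟨η, ξ, k1, k2, k3.trans (mul_le_mul_of_nonneg_right (hCdj j) (sq_nonneg _))⟩
    have e2 : ∀ j, ∀ u : E n, ∃ (η : E n) (ξ : E q),
        fderiv ℝ (Term n q g E0 (T j) (S j) c) z u =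
        fderiv ℝ E0 (g z) (L (u + η)) + ξ ∧ ‖η‖ ≤ 1 / 4 * ‖u‖ ∧
          ‖ξ‖ ≤ Cd * ‖(L : E n →L[ℝ] E n)‖ ^ 2 * c * ‖u‖ := by
      intro j u
      obtain ⟨η, ξ, k1, k2, k3⟩ := (hTe j).2 u
      refine ⟨η, ξ, k1, k2.trans (mul_le_mul_of_nonneg_right hCε (norm_nonneg u)), k3.trans ?_⟩
      have h1 : C' j * (‖(L : E n →L[ℝ] E n)‖ ^ 2 * c * ‖u‖) ≤
          Cd * (‖(L : E n →L[ℝ] E n)‖ ^ 2 * c * ‖u‖) :=
        mul_le_mul_of_nonneg_right (hCdj j) (by positivity)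
      refine le_trans (le_of_eq ?_) (h1.trans (le_of_eq ?_)) <;> ring
    have hS1 : ∑ j, χ j z = 1 := b6.self_of_nhds
    obtain ⟨η0, ξ0, p1, p2, p3⟩ := point0 (q := q) g E0
      (fun j => Term n q g E0 (T j) (S j) c) χ c z L (fun j => (b4 j).2) hS1 C Cd
      (by positivity) hCd0.le e1
    have hsm : ContDiffAt ℝ ∞ (Fl n q K g E0 T S χ c) z :=
      ContDiffAt.sum fun j _ => ((b4 j).1).smul (hTj j)
    -- the distance
    have hd : ‖Fl n q K g E0 T S χ c z - E0 (g z)‖ ≤ (B * C + Cd) * (l * c) := by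
      have k1 : Fl n q K g E0 T S χ c z - E0 (g z) = fderiv ℝ E0 (g z) (L η0) + ξ0 := p1
      rw [k1]
      have k2 : ‖L η0‖ ≤ l * (C * c) := by
        rw [hl]
        exact ((L : E n →L[ℝ] E n).le_opNorm _).trans
          (mul_le_mul_of_nonneg_left p2 (norm_nonneg _))
      have k3 : ‖fderiv ℝ E0 (g z) (L η0)‖ ≤ B * (l * (C * c)) :=
        ((fderiv ℝ E0 (g z)).le_opNorm _).trans (mul_le_mul b1 k2 (norm_nonneg _) hB0.le)
      have k4 : ‖ξ0‖ ≤ Cd * (l * c) := by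
        rw [← hl] at p3
        refine p3.trans (mul_le_mul_of_nonneg_left ?_ hCd0.le)
        have k5 : l * c ≤ 1 := g2'.trans hθ1
        nlinarith
      refine (norm_add_le _ _).trans ((add_le_add k3 k4).trans (le_of_eq ?_))
      ring
    have hd2 : ‖Fl n q K g E0 T S χ c z - E0 (g z)‖ ≤ r / 4 := by
      refine hd.trans ((mul_le_mul_of_nonneg_left (g2'.trans hθ2) hBC.le).trans (le_of_eq ?_))
      field_simp
    have hin : dist (Fl n q K g E0 T S χ c z) (E0 (g 0)) < r := by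
      have k1 := dist_triangle (Fl n q K g E0 T S χ c z) (E0 (g z)) (E0 (g 0))
      rw [dist_eq_norm (Fl n q K g E0 T S χ c z) (E0 (g z))] at k1
      linarith
    refine ⟨hsm, hin, L, ?_⟩
    intro u
    obtain ⟨η, ξ, q1, q2, q3⟩ := point1 (q := q) g E0
      (fun j => Term n q g E0 (T j) (S j) c) χ c z L hc.le hc1
      (fun j => (hTj j).differentiableAt (by simp))
      (fun j => (b4 j).1.differentiableAt (by simp)) (fun j => (b4 j).2) b6 C Cd (1 / 4) Cχ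
      hC.le hCd0.le (by norm_num) e1 e2 (by
        rw [hCχ]
        exact Finset.sum_le_sum fun j _ => b5 j) u
    have q1' : fderiv ℝ (Fl n q K g E0 T S χ c) z u =
        fderiv ℝ E0 (g z) (L (u + η)) + ξ := q1
    rw [q1']
    have w0 := hball (y := E0 (g z)) (b3.trans (by linarith))
    have w1 := hball hin
    have hlip' : ‖fderiv ℝ Ψ (Fl n q K g E0 T S χ c z) - fderiv ℝ Ψ (E0 (g z))‖ ≤
        Λ * ‖Fl n q K g E0 T S χ c z - E0 (g z)‖ := by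
      rw [← dist_eq_norm, ← dist_eq_norm]
      exact hlip.dist_le_mul _ w1.2 _ w0.2
    refine point2 L (fderiv ℝ E0 (g z)) (fderiv ℝ Ψ (E0 (g z)))
      (fderiv ℝ Ψ (Fl n q K g E0 T S χ c z)) b2 B Λ _ Λ0 C5 c b1 hlip' w1.1.2 u η ξ C6 ?_ ?_ ?_
      ?_ ?_
    · refine q2.trans (mul_le_mul_of_nonneg_right ?_ (norm_nonneg u))
      linarith
    · rw [hC6]
      exact q3
    · rw [hC5, ← hl, mul_assoc]
      exact mul_le_mul_of_nonneg_left hd Λ.coe_nonneg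
    · rw [← hl, ← hm, ← hC7]
      refine (mul_le_mul_of_nonneg_right (g1'.trans hθ3) hC70).trans ?_
      rw [div_mul_eq_mul_div, div_le_div_iff₀ (by positivity) (by norm_num)]
      linarith
    · rw [← hl]
      exact mul_nonneg hC50 hlc0
  obtain ⟨m1, m2, L, m3⟩ := main z hz
  refine ⟨m1, ?_⟩
  have hsmΨ : ∀ z : E n, ‖z‖ < min ρN (min ρQ (min ρG (ρT jρ))) →
      ContDiffAt ℝ ∞ (fun z => Ψ (Fl n q K g E0 T S χ c z)) z := by
    intro z hz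
    obtain ⟨k1, k2, -⟩ := main z hz
    exact ContDiffAt.comp z (hball k2).1.1 k1
  have hev : ∀ᶠ z' in 𝓝 z, ‖z'‖ < min ρN (min ρQ (min ρG (ρT jρ))) :=
    (continuous_norm.continuousAt (x := z)).eventually_lt_const hz
  have hfd : fderiv ℝ (fun z => Ψ (Fl n q K g E0 T S χ c z)) z =
      (fderiv ℝ Ψ (Fl n q K g E0 T S χ c z)).comp (fderiv ℝ (Fl n q K g E0 T S χ c) z) :=
    fderiv_comp z ((hball m2).1.1.differentiableAt (by simp)) (m1.differentiableAt (by simp))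
  obtain ⟨A, hA⟩ := equiv_of_near L (fderiv ℝ (fun z => Ψ (Fl n q K g E0 T S χ c z)) z) (by
    intro u
    rw [hfd]
    exact m3 u)
  refine LD_of_contDiffAt (hev.mono fun z' hz' => hsmΨ z' hz') A ?_
  rw [hA]
  exact ((hsmΨ z hz).differentiableAt (by simp)).hasFDerivAt

end Pool.Agent.Y655.NA
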